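import Mathlib

set_option autoImplicit false

/-!
# Multiplication in `C(X, ℂ)` is uniformly open for compact `X` of covering dimension at most one

Let `X` be a compact Hausdorff space with `dim X ≤ 1`.

* Nonvanishing functions are dense in `C(X, ℂ)`: for `F` in `C(X, ℂ)` take a fine open cover such
  that every point lies in at most two members, a subordinate partition of unity `f_k`, and numbers
  `z_k ≠ 0` close to the values of `F` whose arguments are rational; since `π` is irrational no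
  segment `[z_k, z_l]` contains `0`, so `G = Σ f_k z_k` has no zeros.
* Given `a`, `b` and a nonvanishing `c` close to `ab`, the function `F = a + (c/|c|) conj b`
  satisfies `a ≈ |a| u` and `b ≈ |b| (c/|c|) conj u` with `u = F/|F|`, up to `O(√|c - ab|)`; with a
  nonvanishing `G ≈ F`, `u = G/|G|` and `h > 0` such that `h - |c|/h = |a| - |b|` this gives the
  factorisation `c = (h u) (c/(h u))` with factors close to `a` and `b`.
* An arbitrary `c` is reached by iteration.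
-/

open Set Topology Filter Metric
open scoped ComplexConjugate

universe u

namespace Pool.Agent.Results.MP_64150f_an.UniformlyOpen

/-- The covering dimension of `X` is at most `n`: every finite open cover of `X` has a finite open
refinement for which every point lies in at most `n + 1` members. -/
def CovDimLE (X : Type u) [TopologicalSpace X] (n : ℕ) : Prop :=
  ∀ (ι : Type) [Finite ι] (U : ι → Set X), (∀ i, IsOpen (U i)) → (⋃ i, U i) = univ →
    ∃ (κ : Type) (_ : Finite κ) (V : κ → Set X), (∀ k, IsOpen (V k)) ∧ (⋃ k, V k) = univ ∧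
      (∀ k, ∃ i, V k ⊆ U i) ∧ ∀ x, {k | x ∈ V k}.encard ≤ n + 1

/-! ### nonvanishing functions are dense -/

lemma approx_point (w : ℂ) {τ : ℝ} (hτ : 0 < τ) :
    ∃ (r : ℝ) (q : ℚ), 0 < r ∧ ‖(r : ℂ) * Complex.exp (((q : ℝ) : ℂ) * Complex.I) - w‖ < τ := by
  set r : ℝ := ‖w‖ + τ / 2 with hr
  have hr0 : 0 < r := by positivity
  have hcont : Continuous fun θ : ℝ => ‖(r : ℂ) * Complex.exp ((θ : ℂ) * Complex.I) - w‖ := by
    fun_prop
  have hopen : IsOpen {θ : ℝ | ‖(r : ℂ) * Complex.exp ((θ : ℂ) * Complex.I) - w‖ < τ} :=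
    isOpen_lt hcont continuous_const
  have hne : ({θ : ℝ | ‖(r : ℂ) * Complex.exp ((θ : ℂ) * Complex.I) - w‖ < τ}).Nonempty := by
    refine ⟨Complex.arg w, ?_⟩
    simp only [mem_ofPred_eq]
    have h1 : (r : ℂ) * Complex.exp (((Complex.arg w : ℝ) : ℂ) * Complex.I) - w
        = ((τ / 2 : ℝ) : ℂ) * Complex.exp (((Complex.arg w : ℝ) : ℂ) * Complex.I) := by
      have h2 := Complex.norm_mul_exp_arg_mul_I w
      rw [hr]
      push_cast
      rw [add_mul, h2]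
      ring
    rw [h1, norm_mul, Complex.norm_exp_ofReal_mul_I, mul_one, Complex.norm_real,
      Real.norm_of_nonneg (by positivity)]
    linarith
  obtain ⟨q, hq⟩ := Rat.denseRange_cast.exists_mem_open hopen hne
  exact ⟨r, q, hr0, hq⟩

lemma no_cancel {r s : ℝ} (hr : 0 < r) (hs : 0 < s) (p q : ℚ) :
    (r : ℂ) * Complex.exp (((p : ℝ) : ℂ) * Complex.I) +
      (s : ℂ) * Complex.exp (((q : ℝ) : ℂ) * Complex.I) ≠ 0 := by
  intro h
  have h1 : (r : ℂ) * Complex.exp ((((p : ℝ) - (q : ℝ) : ℝ) : ℂ) * Complex.I) + (s : ℂ) = 0 := by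
    have h2 : (r : ℂ) * Complex.exp ((((p : ℝ) - (q : ℝ) : ℝ) : ℂ) * Complex.I) + (s : ℂ)
        = ((r : ℂ) * Complex.exp (((p : ℝ) : ℂ) * Complex.I) +
      (s : ℂ) * Complex.exp (((q : ℝ) : ℂ) * Complex.I)) *
        Complex.exp (-(((q : ℝ) : ℂ) * Complex.I)) := by
      rw [add_mul, mul_assoc, ← Complex.exp_add, mul_assoc, ← Complex.exp_add]
      congr 2
      · congr 1
        push_cast
        ring
      · simp
    rw [h2, h, zero_mul]
  have him := congrArg Complex.im h1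
  simp only [Complex.add_im, Complex.mul_im, Complex.ofReal_re, Complex.ofReal_im, zero_mul,
    add_zero, Complex.zero_im, Complex.exp_ofReal_mul_I_im] at him
  have hsin : Real.sin ((p : ℝ) - (q : ℝ)) = 0 := by
    rcases mul_eq_zero.1 him with h | h
    · exact absurd h hr.ne'
    · exact h
  obtain ⟨n, hn⟩ := Real.sin_eq_zero_iff.1 hsin
  rcases eq_or_ne n 0 with h0 | h0
  · rw [h0] at hn
    have hpq : (p : ℝ) - (q : ℝ) = 0 := by rw [← hn]; simp
    rw [hpq] at h1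
    simp only [Complex.ofReal_zero, zero_mul, Complex.exp_zero, mul_one] at h1
    have : r + s = 0 := by exact_mod_cast h1
    linarith
  · have hπ : Real.pi = (((p - q) / n : ℚ) : ℝ) := by
      push_cast
      rw [← hn]
      have : (n : ℝ) ≠ 0 := by exact_mod_cast h0
      field_simp
    exact irrational_pi ⟨_, hπ.symm⟩

variable {X : Type u} [TopologicalSpace X] [CompactSpace X] [T2Space X]

lemma dense_nonvanishing (hX : CovDimLE X 1) (F : C(X, ℂ)) {ν : ℝ} (hν : 0 < ν) :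
    ∃ G : C(X, ℂ), (∀ x, G x ≠ 0) ∧ ∀ x, ‖G x - F x‖ ≤ ν := by
  classical
  obtain ⟨t, -, htf, htc⟩ := (isCompact_range F.continuous).finite_cover_balls (half_pos hν)
  have : Finite t := htf
  obtain ⟨κ, hκ, V, hVo, hVc, hVU, hVn⟩ := hX t (fun i => F ⁻¹' ball (i : ℂ) (ν / 2))
    (fun i => isOpen_ball.preimage F.continuous) (by
      rw [eq_univ_iff_forall]
      intro x
      have := htc (mem_range_self x)
      simp only [mem_iUnion] at this ⊢
      obtain ⟨y, hy, hxy⟩ := this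
      exact ⟨⟨y, hy⟩, hxy⟩)
  have := Fintype.ofFinite κ
  choose i hi using hVU
  obtain ⟨f, hf⟩ := PartitionOfUnity.exists_isSubordinate_of_locallyFinite (s := (univ : Set X))
    isClosed_univ V hVo (locallyFinite_of_finite V) (by rw [hVc])
  choose r q hr hz using fun k : κ => approx_point ((i k : t) : ℂ) (half_pos hν)
  set z : κ → ℂ := fun k => (r k : ℂ) * Complex.exp (((q k : ℝ) : ℂ) * Complex.I) with hzdef
  have hsum : ∀ x, ∑ k, f k x = 1 := by
    intro x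
    have := f.sum_eq_one (mem_univ x)
    rwa [finsum_eq_sum_of_fintype] at this
  have hmem : ∀ k x, f k x ≠ 0 → x ∈ V k := by
    intro k x hk
    exact hf k (subset_tsupport _ hk)
  let G : C(X, ℂ) := ⟨fun x => ∑ k, ((f k x : ℝ) : ℂ) * z k, by
    refine continuous_finsetSum _ fun k _ => ?_
    exact (Complex.continuous_ofReal.comp (f k).continuous).mul continuous_const⟩
  refine ⟨G, ?_, ?_⟩
  · intro x h0
    have hG : G x = ∑ k, ((f k x : ℝ) : ℂ) * z k := rfl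
    rw [hG] at h0
    set S : Finset κ := Finset.univ.filter fun k => f k x ≠ 0 with hS
    have hScard : S.card ≤ 2 := by
      have h1 : (S : Set κ) ⊆ {k | x ∈ V k} := by
        intro k hk
        rw [hS] at hk
        simp only [Finset.coe_filter, Finset.mem_univ, true_and, mem_ofPred_eq] at hk
        exact hmem k x hk
      have h2 := (encard_le_encard h1).trans (hVn x)
      rw [encard_coe_eq_coe_finsetCard] at h2
      have h3 : ((S.card : ℕ) : ℕ∞) ≤ ((2 : ℕ) : ℕ∞) := by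
        refine h2.trans (le_of_eq ?_)
        norm_num
      exact_mod_cast h3
    have hsS : ∑ k ∈ S, f k x = 1 := by
      rw [← hsum x]
      refine Finset.sum_filter_of_ne ?_
      intro k _ hk
      exact hk
    have hzS : ∑ k ∈ S, ((f k x : ℝ) : ℂ) * z k = 0 := by
      rw [← h0]
      refine Finset.sum_filter_of_ne ?_
      intro k _ hk h4
      apply hk
      rw [h4]
      simp
    have hpos : ∀ k ∈ S, 0 < f k x := by
      intro k hk
      rw [hS] at hk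
      simp only [Finset.mem_filter, Finset.mem_univ, true_and] at hk
      exact lt_of_le_of_ne (f.nonneg k x) (Ne.symm hk)
    have hcases : S.card = 0 ∨ S.card = 1 ∨ S.card = 2 := by omega
    rcases hcases with h | h | h
    · rw [Finset.card_eq_zero] at h
      rw [h] at hsS
      simp at hsS
    · obtain ⟨k, hk⟩ := Finset.card_eq_one.1 h
      have hkp := hpos k (by rw [hk]; simp)
      rw [hk] at hzS
      simp only [Finset.sum_singleton, hzdef] at hzS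
      rcases mul_eq_zero.1 hzS with h5 | h5
      · have : f k x = 0 := by exact_mod_cast h5
        linarith
      · rcases mul_eq_zero.1 h5 with h6 | h6
        · have : r k = 0 := by exact_mod_cast h6
          exact (hr k).ne' this
        · exact Complex.exp_ne_zero _ h6
    · obtain ⟨k, l, hkl, hS2⟩ := Finset.card_eq_two.1 h
      have hkp := hpos k (by rw [hS2]; simp)
      have hlp := hpos l (by rw [hS2]; simp)
      rw [hS2, Finset.sum_pair hkl] at hzS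
      refine no_cancel (mul_pos hkp (hr k)) (mul_pos hlp (hr l)) (q k) (q l) ?_
      rw [← hzS]
      simp only [hzdef]
      push_cast
      ring
  · intro x
    have hG : G x = ∑ k, ((f k x : ℝ) : ℂ) * z k := rfl
    have h1 : G x - F x = ∑ k, ((f k x : ℝ) : ℂ) * (z k - F x) := by
      rw [hG]
      simp only [mul_sub, Finset.sum_sub_distrib]
      rw [← Finset.sum_mul]
      have : (∑ k, ((f k x : ℝ) : ℂ)) = 1 := by exact_mod_cast hsum x
      rw [this, one_mul]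
    rw [h1]
    calc ‖∑ k, ((f k x : ℝ) : ℂ) * (z k - F x)‖ ≤ ∑ k, ‖((f k x : ℝ) : ℂ) * (z k - F x)‖ :=
          norm_sum_le _ _
      _ ≤ ∑ k, f k x * ν := by
          refine Finset.sum_le_sum fun k _ => ?_
          rw [norm_mul, Complex.norm_real, Real.norm_of_nonneg (f.nonneg k x)]
          rcases eq_or_ne (f k x) 0 with h0 | h0
          · rw [h0]; simp
          · have h2 := hi k (hmem k x h0)
            simp only [mem_preimage, mem_ball, dist_eq_norm] at h2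
            have h3 := hz k
            have h4 : ‖z k - F x‖ ≤ ν := by
              calc ‖z k - F x‖ = ‖(z k - (i k : ℂ)) - (F x - (i k : ℂ))‖ := by
                    congr 1; ring
                _ ≤ ‖z k - (i k : ℂ)‖ + ‖F x - (i k : ℂ)‖ := norm_sub_le _ _
                _ ≤ ν := by
                    have h3' : ‖z k - (i k : ℂ)‖ < ν / 2 := h3
                    linarith
            exact mul_le_mul_of_nonneg_left h4 (f.nonneg k x)
      _ = ν := by rw [← Finset.sum_mul, hsum x, one_mul]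

/-! ### the pointwise estimate -/

/-- difference of the moduli -/
noncomputable def sd (a b : ℂ) : ℝ := ‖a‖ - ‖b‖

/-- the modulus of the first factor -/
noncomputable def hh (a b c : ℂ) : ℝ := (sd a b + Real.sqrt (sd a b ^ 2 + 4 * ‖c‖)) / 2

lemma hh_pos {a b c : ℂ} (hc : c ≠ 0) : 0 < hh a b c := by
  unfold hh
  have hc0 : 0 < ‖c‖ := norm_pos_iff.2 hc
  have h1 : |sd a b| < Real.sqrt (sd a b ^ 2 + 4 * ‖c‖) := by
    rw [← Real.sqrt_sq_eq_abs]
    exact Real.sqrt_lt_sqrt (sq_nonneg _) (by linarith)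
  have h2 := (abs_lt.1 h1).1
  linarith

lemma hh_mul {a b c : ℂ} :
    hh a b c * (hh a b c - sd a b) = ‖c‖ := by
  unfold hh
  have hs := Real.sq_sqrt (show 0 ≤ sd a b ^ 2 + 4 * ‖c‖ by positivity)
  nlinarith [hs]

lemma hh_near {a b c : ℂ} {δ : ℝ} (h : ‖c - a * b‖ ≤ δ) :
    |hh a b c - ‖a‖| ≤ Real.sqrt δ := by
  have hδ : 0 ≤ δ := (norm_nonneg _).trans h
  set p := Real.sqrt (sd a b ^ 2 + 4 * ‖c‖) with hp
  have hp0 : 0 ≤ p := Real.sqrt_nonneg _
  have hs : p ^ 2 = sd a b ^ 2 + 4 * ‖c‖ := Real.sq_sqrt (by positivity)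
  have ha := norm_nonneg a
  have hb := norm_nonneg b
  have hm : |‖c‖ - ‖a‖ * ‖b‖| ≤ δ := by
    rw [← norm_mul]
    exact (abs_norm_sub_norm_le _ _).trans h
  have h1 : hh a b c - ‖a‖ = (p - (‖a‖ + ‖b‖)) / 2 := by
    unfold hh sd
    rw [hp]
    unfold sd
    ring
  have h2 : (p - (‖a‖ + ‖b‖)) ^ 2 ≤ 4 * δ := by
    have h3 : |p - (‖a‖ + ‖b‖)| * (p + (‖a‖ + ‖b‖)) = 4 * |‖c‖ - ‖a‖ * ‖b‖| := by
      have e1 : (p - (‖a‖ + ‖b‖)) * (p + (‖a‖ + ‖b‖)) = 4 * (‖c‖ - ‖a‖ * ‖b‖) := by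
        have : sd a b = ‖a‖ - ‖b‖ := rfl
        rw [this] at hs
        nlinarith [hs]
      have e2 := congrArg abs e1
      rw [abs_mul, abs_mul, abs_of_nonneg (show 0 ≤ p + (‖a‖ + ‖b‖) by positivity),
        abs_of_nonneg (show (0 : ℝ) ≤ 4 by norm_num)] at e2
      exact e2
    have h4 : |p - (‖a‖ + ‖b‖)| ≤ p + (‖a‖ + ‖b‖) := by
      rw [abs_le]
      constructor <;> linarith
    calc (p - (‖a‖ + ‖b‖)) ^ 2 = |p - (‖a‖ + ‖b‖)| * |p - (‖a‖ + ‖b‖)| := by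
          rw [← sq, sq_abs]
      _ ≤ |p - (‖a‖ + ‖b‖)| * (p + (‖a‖ + ‖b‖)) := by gcongr
      _ = 4 * |‖c‖ - ‖a‖ * ‖b‖| := h3
      _ ≤ 4 * δ := by gcongr
  rw [h1]
  apply abs_le_of_sq_le_sq _ (Real.sqrt_nonneg _)
  rw [Real.sq_sqrt hδ]
  nlinarith [h2]

/-- the key estimate: the phases of `a` and of `(c/|c|) conj b` agree -/
lemma key {a b c : ℂ} (hc : c ≠ 0) {δ : ℝ} (h : ‖c - a * b‖ ≤ δ) :
    ‖(‖a‖ : ℂ) * (c / (‖c‖ : ℂ) * conj b) - (‖b‖ : ℂ) * a‖ ≤ 2 * δ := by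
  have hδ : 0 ≤ δ := (norm_nonneg _).trans h
  have hc0 : ‖c‖ ≠ 0 := norm_ne_zero_iff.2 hc
  rcases eq_or_ne b 0 with hb | hb
  · rw [hb]; simpa using hδ
  have hb0 : 0 < ‖b‖ := norm_pos_iff.2 hb
  have hw : ‖c / (‖c‖ : ℂ)‖ = 1 := by
    rw [norm_div, Complex.norm_real, norm_norm, div_self hc0]
  have hbb : conj b * b = ((‖b‖ : ℝ) : ℂ) ^ 2 := Complex.conj_mul' b
  have h1 : ‖(‖a‖ : ℂ) * (c / (‖c‖ : ℂ) * conj b) - (‖b‖ : ℂ) * a‖ * ‖b‖
      = ‖b‖ * ‖(‖a‖ : ℂ) * (‖b‖ : ℂ) * (c / (‖c‖ : ℂ)) - a * b‖ := by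
    rw [← norm_mul]
    have h2 : ‖b‖ * ‖(‖a‖ : ℂ) * (‖b‖ : ℂ) * (c / (‖c‖ : ℂ)) - a * b‖
        = ‖(‖b‖ : ℂ) * ((‖a‖ : ℂ) * (‖b‖ : ℂ) * (c / (‖c‖ : ℂ)) - a * b)‖ := by
      rw [norm_mul, Complex.norm_real, norm_norm]
    rw [h2]
    congr 1
    calc ((‖a‖ : ℂ) * (c / (‖c‖ : ℂ) * conj b) - (‖b‖ : ℂ) * a) * b
        = (‖a‖ : ℂ) * (c / (‖c‖ : ℂ)) * (conj b * b) - (‖b‖ : ℂ) * a * b := by ring
      _ = _ := by rw [hbb]; ring
  have h3 : ‖(‖a‖ : ℂ) * (‖b‖ : ℂ) * (c / (‖c‖ : ℂ)) - a * b‖ ≤ 2 * δ := by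
    have h4 : (‖a‖ : ℂ) * (‖b‖ : ℂ) * (c / (‖c‖ : ℂ)) - a * b
        = ((‖a‖ * ‖b‖ - ‖c‖ : ℝ) : ℂ) * (c / (‖c‖ : ℂ)) + (c - a * b) := by
      have h5 : ((‖c‖ : ℝ) : ℂ) * (c / (‖c‖ : ℂ)) = c := by
        have : ((‖c‖ : ℝ) : ℂ) ≠ 0 := by exact_mod_cast hc0
        field_simp
      push_cast
      rw [sub_mul, h5]
      ring
    rw [h4]
    calc ‖((‖a‖ * ‖b‖ - ‖c‖ : ℝ) : ℂ) * (c / (‖c‖ : ℂ)) + (c - a * b)‖
        ≤ ‖((‖a‖ * ‖b‖ - ‖c‖ : ℝ) : ℂ) * (c / (‖c‖ : ℂ))‖ + ‖c - a * b‖ := norm_add_le _ _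
      _ = |‖a‖ * ‖b‖ - ‖c‖| + ‖c - a * b‖ := by
          rw [norm_mul, hw, mul_one, Complex.norm_real, Real.norm_eq_abs]
      _ ≤ δ + δ := by
          refine add_le_add ?_ h
          rw [abs_sub_comm, ← norm_mul]
          exact (abs_norm_sub_norm_le _ _).trans h
      _ = 2 * δ := by ring
  have h6 : ‖(‖a‖ : ℂ) * (c / (‖c‖ : ℂ) * conj b) - (‖b‖ : ℂ) * a‖ * ‖b‖ ≤ 2 * δ * ‖b‖ := by
    rw [h1, mul_comm]
    gcongr
  exact le_of_mul_le_mul_right h6 hb0

/-- abstract form: `F = a + d`, `‖a‖ d ≈ ‖d‖ a`, then `‖a‖ u ≈ a` for the phase `u` of `g ≈ F` -/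
lemma phase {a d g : ℂ} (hg : g ≠ 0) {δ ν : ℝ} (hδ : 0 ≤ δ)
    (h1 : ‖(‖a‖ : ℂ) * d - (‖d‖ : ℂ) * a‖ ≤ 2 * δ) (h2 : ‖g - (a + d)‖ ≤ ν) :
    ‖(‖a‖ : ℂ) * (g / (‖g‖ : ℂ)) - a‖ ≤ 6 * Real.sqrt δ + 2 * ν := by
  have hν : 0 ≤ ν := (norm_nonneg _).trans h2
  have hg0 : ‖g‖ ≠ 0 := norm_ne_zero_iff.2 hg
  have hgc : ((‖g‖ : ℝ) : ℂ) ≠ 0 := by exact_mod_cast hg0
  have ha := norm_nonneg a
  have hd := norm_nonneg d
  have hsδ := Real.sqrt_nonneg δ
  set u : ℂ := g / (‖g‖ : ℂ) with hu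
  have hu1 : ‖u‖ = 1 := by rw [hu, norm_div, Complex.norm_real, norm_norm, div_self hg0]
  set S : ℝ := ‖a‖ + ‖d‖ with hS
  rcases lt_or_ge S (3 * Real.sqrt δ) with hlt | hge
  · calc ‖(‖a‖ : ℂ) * u - a‖ ≤ ‖(‖a‖ : ℂ) * u‖ + ‖a‖ := norm_sub_le _ _
      _ = 2 * ‖a‖ := by rw [norm_mul, hu1, Complex.norm_real, norm_norm]; ring
      _ ≤ 6 * Real.sqrt δ + 2 * ν := by linarith
  · rcases eq_or_lt_of_le (show 0 ≤ S by positivity) with h0 | h0
    · have ha0 : ‖a‖ = 0 := by linarith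
      rw [norm_eq_zero.1 ha0]
      simp
      positivity
    set F : ℂ := a + d with hF
    have e1 : ‖(‖a‖ : ℂ) * F - (S : ℂ) * a‖ ≤ 2 * δ := by
      have : (‖a‖ : ℂ) * F - (S : ℂ) * a = (‖a‖ : ℂ) * d - (‖d‖ : ℂ) * a := by
        rw [hF, hS]; push_cast; ring
      rw [this]; exact h1
    have e2 : ‖(‖d‖ : ℂ) * F - (S : ℂ) * d‖ ≤ 2 * δ := by
      have : (‖d‖ : ℂ) * F - (S : ℂ) * d = -((‖a‖ : ℂ) * d - (‖d‖ : ℂ) * a) := by
        rw [hF, hS]; push_cast; ring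
      rw [this, norm_neg]; exact h1
    have e3 : S * ‖a‖ - 2 * δ ≤ ‖a‖ * ‖F‖ := by
      have h3 := norm_sub_norm_le ((S : ℂ) * a) ((‖a‖ : ℂ) * F)
      rw [norm_sub_rev] at h3
      have h4 : ‖(S : ℂ) * a‖ = S * ‖a‖ := by
        rw [norm_mul, Complex.norm_real, Real.norm_of_nonneg h0.le]
      have h5 : ‖(‖a‖ : ℂ) * F‖ = ‖a‖ * ‖F‖ := by
        rw [norm_mul, Complex.norm_real, norm_norm]
      rw [h4, h5] at h3
      linarith
    have e4 : S * ‖d‖ - 2 * δ ≤ ‖d‖ * ‖F‖ := by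
      have h3 := norm_sub_norm_le ((S : ℂ) * d) ((‖d‖ : ℂ) * F)
      rw [norm_sub_rev] at h3
      have h4 : ‖(S : ℂ) * d‖ = S * ‖d‖ := by
        rw [norm_mul, Complex.norm_real, Real.norm_of_nonneg h0.le]
      have h5 : ‖(‖d‖ : ℂ) * F‖ = ‖d‖ * ‖F‖ := by
        rw [norm_mul, Complex.norm_real, norm_norm]
      rw [h4, h5] at h3
      linarith
    have e5 : S * (S - ‖F‖) ≤ 4 * δ := by nlinarith
    have e6 : ‖F‖ ≤ S := norm_add_le _ _
    have e7 : ‖(‖F‖ : ℂ) * u - F‖ ≤ 2 * ν := by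
      have h3 : g = (‖g‖ : ℂ) * u := by rw [hu]; field_simp
      calc ‖(‖F‖ : ℂ) * u - F‖ = ‖((‖F‖ - ‖g‖ : ℝ) : ℂ) * u + (g - F)‖ := by
            congr 1
            conv_rhs => rw [h3]
            push_cast
            have h4 : ((‖(‖g‖ : ℂ) * u‖ : ℝ) : ℂ) = (‖g‖ : ℂ) := by
              rw [norm_mul, hu1, mul_one, Complex.norm_real, norm_norm]
            rw [h4]
            ring
        _ ≤ ‖((‖F‖ - ‖g‖ : ℝ) : ℂ) * u‖ + ‖g - F‖ := norm_add_le _ _
        _ = |‖F‖ - ‖g‖| + ‖g - F‖ := by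
            rw [norm_mul, hu1, mul_one, Complex.norm_real, Real.norm_eq_abs]
        _ ≤ ν + ν := by
            refine add_le_add ?_ h2
            rw [abs_sub_comm]
            exact (abs_norm_sub_norm_le _ _).trans h2
        _ = 2 * ν := by ring
    have e8 : S * ‖(‖a‖ : ℂ) * u - a‖ ≤ 6 * δ + 2 * ν * S := by
      have h3 : (S : ℂ) * ((‖a‖ : ℂ) * u - a)
          = (‖a‖ : ℂ) * (((S - ‖F‖ : ℝ) : ℂ) * u + ((‖F‖ : ℂ) * u - F))
            + ((‖a‖ : ℂ) * F - (S : ℂ) * a) := by push_cast; ring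
      have h4 : S * ‖(‖a‖ : ℂ) * u - a‖ = ‖(S : ℂ) * ((‖a‖ : ℂ) * u - a)‖ := by
        rw [norm_mul, Complex.norm_real, Real.norm_of_nonneg h0.le]
      have h5 : ‖((S - ‖F‖ : ℝ) : ℂ) * u + ((‖F‖ : ℂ) * u - F)‖ ≤ (S - ‖F‖) + 2 * ν := by
        refine (norm_add_le _ _).trans (add_le_add ?_ e7)
        rw [norm_mul, hu1, mul_one, Complex.norm_real, Real.norm_of_nonneg (by linarith)]
      rw [h4, h3]
      calc _ ≤ ‖(‖a‖ : ℂ) * (((S - ‖F‖ : ℝ) : ℂ) * u + ((‖F‖ : ℂ) * u - F))‖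
            + ‖(‖a‖ : ℂ) * F - (S : ℂ) * a‖ := norm_add_le _ _
        _ ≤ ‖a‖ * ((S - ‖F‖) + 2 * ν) + 2 * δ := by
            refine add_le_add ?_ e1
            rw [norm_mul, Complex.norm_real, norm_norm]
            gcongr
        _ ≤ S * ((S - ‖F‖) + 2 * ν) + 2 * δ := by
            have : ‖a‖ ≤ S := by linarith
            have h7 : 0 ≤ (S - ‖F‖) + 2 * ν := by linarith
            gcongr
        _ ≤ 6 * δ + 2 * ν * S := by nlinarith
    have e9 : 6 * δ ≤ 2 * Real.sqrt δ * S := by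
      have := Real.mul_self_sqrt hδ
      nlinarith
    have e10 : S * ‖(‖a‖ : ℂ) * u - a‖ ≤ S * (2 * Real.sqrt δ + 2 * ν) := by nlinarith
    have := le_of_mul_le_mul_left e10 h0
    linarith

/-- the pointwise estimate -/
lemma pointwise {a b c g : ℂ} (hc : c ≠ 0) (hg : g ≠ 0) {δ ν : ℝ} (h : ‖c - a * b‖ ≤ δ)
    (h2 : ‖g - (a + c / (‖c‖ : ℂ) * conj b)‖ ≤ ν) :
    ‖(hh a b c : ℂ) * (g / (‖g‖ : ℂ)) - a‖ ≤ 7 * Real.sqrt δ + 2 * ν ∧
      ‖c / ((hh a b c : ℂ) * (g / (‖g‖ : ℂ))) - b‖ ≤ 7 * Real.sqrt δ + 2 * ν := by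
  have hδ : 0 ≤ δ := (norm_nonneg _).trans h
  have hg0 : ‖g‖ ≠ 0 := norm_ne_zero_iff.2 hg
  have hgc : ((‖g‖ : ℝ) : ℂ) ≠ 0 := by exact_mod_cast hg0
  have hc0 : ‖c‖ ≠ 0 := norm_ne_zero_iff.2 hc
  have hcc : ((‖c‖ : ℝ) : ℂ) ≠ 0 := by exact_mod_cast hc0
  set u : ℂ := g / (‖g‖ : ℂ) with hu
  have hu1 : ‖u‖ = 1 := by rw [hu, norm_div, Complex.norm_real, norm_norm, div_self hg0]
  set w : ℂ := c / (‖c‖ : ℂ) with hw
  have hw1 : ‖w‖ = 1 := by rw [hw, norm_div, Complex.norm_real, norm_norm, div_self hc0]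
  set d : ℂ := w * conj b with hd
  have hd1 : ‖d‖ = ‖b‖ := by rw [hd, norm_mul, hw1, one_mul, RCLike.norm_conj]
  have hk : ‖(‖a‖ : ℂ) * d - (‖d‖ : ℂ) * a‖ ≤ 2 * δ := by
    rw [hd1]
    exact key hc h
  have p1 := phase hg hδ hk h2
  have p2 := phase (a := d) (d := a) (ν := ν) hg hδ (by rw [norm_sub_rev]; exact hk) (by
    rw [add_comm d a]; exact h2)
  rw [← hu] at p1 p2
  rw [hd1] at p2
  have hh0 := hh_pos (a := a) (b := b) hc
  have n1 := hh_near h
  have hh0c : ((hh a b c : ℝ) : ℂ) ≠ 0 := by exact_mod_cast hh0.ne'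
  have hmul := hh_mul (a := a) (b := b) (c := c)
  have huu : u * conj u = 1 := by
    rw [Complex.mul_conj', hu1]; simp
  have hww : w * conj w = 1 := by
    rw [Complex.mul_conj', hw1]; simp
  constructor
  · calc ‖(hh a b c : ℂ) * u - a‖ = ‖((hh a b c - ‖a‖ : ℝ) : ℂ) * u + ((‖a‖ : ℂ) * u - a)‖ := by
          congr 1; push_cast; ring
      _ ≤ ‖((hh a b c - ‖a‖ : ℝ) : ℂ) * u‖ + ‖(‖a‖ : ℂ) * u - a‖ := norm_add_le _ _
      _ ≤ Real.sqrt δ + (6 * Real.sqrt δ + 2 * ν) := by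
          refine add_le_add ?_ p1
          rw [norm_mul, hu1, mul_one, Complex.norm_real, Real.norm_eq_abs]
          exact n1
      _ = _ := by ring
  · have hu0 : u ≠ 0 := by
      intro h0; rw [h0] at hu1; simp at hu1
    have e1 : c / ((hh a b c : ℂ) * u) = ((hh a b c - sd a b : ℝ) : ℂ) * (w * conj u) := by
      have h3 : c = ((‖c‖ : ℝ) : ℂ) * w := by rw [hw]; field_simp
      have h4 : ((‖c‖ : ℝ) : ℂ) = (hh a b c : ℂ) * ((hh a b c - sd a b : ℝ) : ℂ) := by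
        rw [← hmul]; push_cast; ring
      rw [div_eq_iff (mul_ne_zero hh0c hu0)]
      calc c = ((‖c‖ : ℝ) : ℂ) * w := h3
        _ = (hh a b c : ℂ) * ((hh a b c - sd a b : ℝ) : ℂ) * w * (u * conj u) := by
            rw [huu, ← h4]; ring
        _ = _ := by ring
    have e2 : ‖(‖b‖ : ℂ) * (w * conj u) - b‖ = ‖(‖b‖ : ℂ) * u - d‖ := by
      have h3 : (‖b‖ : ℂ) * (w * conj u) - b = w * conj ((‖b‖ : ℂ) * u - d) := by
        rw [hd]
        simp only [map_sub, map_mul, Complex.conj_ofReal, Complex.conj_conj]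
        calc (‖b‖ : ℂ) * (w * conj u) - b = (‖b‖ : ℂ) * (w * conj u) - (w * conj w) * b := by
              rw [hww, one_mul]
          _ = _ := by ring
      rw [h3, norm_mul, hw1, one_mul, RCLike.norm_conj]
    have n2 : |hh a b c - sd a b - ‖b‖| ≤ Real.sqrt δ := by
      have : hh a b c - sd a b - ‖b‖ = hh a b c - ‖a‖ := by unfold sd; ring
      rw [this]; exact n1
    rw [e1]
    calc ‖((hh a b c - sd a b : ℝ) : ℂ) * (w * conj u) - b‖
        = ‖((hh a b c - sd a b - ‖b‖ : ℝ) : ℂ) * (w * conj u)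
            + ((‖b‖ : ℂ) * (w * conj u) - b)‖ := by
          congr 1; push_cast; ring
      _ ≤ ‖((hh a b c - sd a b - ‖b‖ : ℝ) : ℂ) * (w * conj u)‖
            + ‖(‖b‖ : ℂ) * (w * conj u) - b‖ := norm_add_le _ _
      _ ≤ Real.sqrt δ + (6 * Real.sqrt δ + 2 * ν) := by
          refine add_le_add ?_ ?_
          · rw [norm_mul, norm_mul, hw1, RCLike.norm_conj, hu1, mul_one, mul_one,
              Complex.norm_real, Real.norm_eq_abs]
            exact n2
          · rw [e2]; exact p2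
      _ = _ := by ring

/-! ### approximate and exact factorisation -/

lemma one_step (hX : CovDimLE X 1) (a b c : C(X, ℂ)) {δ : ℝ} (hδ : 0 < δ)
    (h : ‖c - a * b‖ < δ) {γ : ℝ} (hγ : 0 < γ) :
    ∃ a₁ b₁ : C(X, ℂ), ‖a₁ - a‖ ≤ 8 * Real.sqrt δ ∧ ‖b₁ - b‖ ≤ 8 * Real.sqrt δ ∧
      ‖c - a₁ * b₁‖ ≤ γ := by
  have hsδ : 0 < Real.sqrt δ := Real.sqrt_pos.2 hδ
  obtain ⟨c', hc', hcc⟩ := dense_nonvanishing hX c
    (show 0 < min γ (δ - ‖c - a * b‖) from lt_min hγ (by linarith))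
  have hn : ∀ x, ((‖c' x‖ : ℝ) : ℂ) ≠ 0 := fun x => by
    exact_mod_cast norm_ne_zero_iff.2 (hc' x)
  let F : C(X, ℂ) := ⟨fun x => a x + c' x / (‖c' x‖ : ℂ) * conj (b x), by
    refine a.continuous.add ((c'.continuous.div ?_ hn).mul ?_)
    · exact Complex.continuous_ofReal.comp c'.continuous.norm
    · exact Complex.continuous_conj.comp b.continuous⟩
  obtain ⟨G, hG, hGF⟩ := dense_nonvanishing hX F (show 0 < Real.sqrt δ / 2 by positivity)
  have hGn : ∀ x, ((‖G x‖ : ℝ) : ℂ) ≠ 0 := fun x => by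
    exact_mod_cast norm_ne_zero_iff.2 (hG x)
  have hhc : Continuous fun x => ((hh (a x) (b x) (c' x) : ℝ) : ℂ) := by
    unfold hh sd
    refine Complex.continuous_ofReal.comp ?_
    have h1 := a.continuous.norm
    have h2 := b.continuous.norm
    have h3 := c'.continuous.norm
    fun_prop
  have hpt : ∀ x, ‖c' x - a x * b x‖ ≤ δ := by
    intro x
    have h1 : ‖c x - a x * b x‖ ≤ ‖c - a * b‖ := (c - a * b).norm_coe_le_norm x
    have h2 := (hcc x).trans (min_le_right _ _)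
    calc ‖c' x - a x * b x‖ = ‖(c' x - c x) + (c x - a x * b x)‖ := by congr 1; ring
      _ ≤ ‖c' x - c x‖ + ‖c x - a x * b x‖ := norm_add_le _ _
      _ ≤ δ := by linarith
  have hpw := fun x => pointwise (hc' x) (hG x) (hpt x) (hGF x)
  let a₁ : C(X, ℂ) := ⟨fun x => ((hh (a x) (b x) (c' x) : ℝ) : ℂ) * (G x / (‖G x‖ : ℂ)),
    hhc.mul (G.continuous.div (Complex.continuous_ofReal.comp G.continuous.norm) hGn)⟩
  have ha₁ : ∀ x, a₁ x ≠ 0 := by
    intro x
    have h1 : ((hh (a x) (b x) (c' x) : ℝ) : ℂ) ≠ 0 := by exact_mod_cast (hh_pos (hc' x)).ne'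
    exact mul_ne_zero h1 (div_ne_zero (hG x) (hGn x))
  let b₁ : C(X, ℂ) := ⟨fun x => c' x / a₁ x, c'.continuous.div a₁.continuous ha₁⟩
  refine ⟨a₁, b₁, ?_, ?_, ?_⟩
  · rw [ContinuousMap.norm_le _ (by positivity)]
    intro x
    have := (hpw x).1
    calc ‖(a₁ - a) x‖ ≤ 7 * Real.sqrt δ + 2 * (Real.sqrt δ / 2) := this
      _ = 8 * Real.sqrt δ := by ring
  · rw [ContinuousMap.norm_le _ (by positivity)]
    intro x
    have := (hpw x).2
    calc ‖(b₁ - b) x‖ ≤ 7 * Real.sqrt δ + 2 * (Real.sqrt δ / 2) := this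
      _ = 8 * Real.sqrt δ := by ring
  · rw [ContinuousMap.norm_le _ hγ.le]
    intro x
    have h1 : (c - a₁ * b₁) x = c x - c' x := by
      have h2 : a₁ x * b₁ x = c' x := by
        change a₁ x * (c' x / a₁ x) = c' x
        rw [mul_div_cancel₀]
        exact ha₁ x
      change c x - a₁ x * b₁ x = c x - c' x
      rw [h2]
    rw [h1, norm_sub_rev]
    exact (hcc x).trans (min_le_left _ _)

lemma exact (hX : CovDimLE X 1) (a b c : C(X, ℂ)) {δ : ℝ} (hδ : 0 < δ)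
    (h : ‖c - a * b‖ < δ) :
    ∃ a' b' : C(X, ℂ), a' * b' = c ∧ ‖a' - a‖ ≤ 9 * Real.sqrt δ ∧ ‖b' - b‖ ≤ 9 * Real.sqrt δ := by
  classical
  -- the errors
  let d : ℕ → ℝ := fun n => δ * (1 / 20) ^ (2 * n)
  have hd : ∀ n, 0 < d n := fun n => by positivity
  have hsd : ∀ n, Real.sqrt (d n) = Real.sqrt δ * (1 / 20) ^ n := by
    intro n
    have : d n = δ * (((1 : ℝ) / 20) ^ n) ^ 2 := by
      change δ * (1 / 20) ^ (2 * n) = _
      rw [← pow_mul, mul_comm n 2]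
    rw [this, Real.sqrt_mul hδ.le, Real.sqrt_sq (by positivity)]
  let St : ℕ → Type u := fun n => {p : C(X, ℂ) × C(X, ℂ) // ‖c - p.1 * p.2‖ < d n}
  have step : ∀ n (p : St n), ∃ q : St (n + 1), ‖q.1.1 - p.1.1‖ ≤ 8 * Real.sqrt (d n) ∧
      ‖q.1.2 - p.1.2‖ ≤ 8 * Real.sqrt (d n) := by
    intro n p
    obtain ⟨a₁, b₁, h1, h2, h3⟩ := one_step hX p.1.1 p.1.2 c (hd n) p.2
      (γ := d (n + 1) / 2) (by have := hd (n + 1); positivity)
    refine ⟨⟨(a₁, b₁), ?_⟩, h1, h2⟩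
    have := hd (n + 1)
    exact lt_of_le_of_lt h3 (by linarith)
  choose nxt hn1 hn2 using step
  let p : (n : ℕ) → St n := fun n => Nat.rec ⟨(a, b), by simpa [d] using h⟩ (fun n q => nxt n q) n
  have hp : ∀ n, p (n + 1) = nxt n (p n) := fun n => rfl
  have hp0 : (p 0).1 = (a, b) := rfl
  have hA : ∀ n, dist (p n).1.1 (p (n + 1)).1.1 ≤ 8 * Real.sqrt δ * (1 / 20) ^ n := by
    intro n
    rw [dist_comm, dist_eq_norm, hp n]
    refine (hn1 n (p n)).trans (le_of_eq ?_)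
    rw [hsd]; ring
  have hB : ∀ n, dist (p n).1.2 (p (n + 1)).1.2 ≤ 8 * Real.sqrt δ * (1 / 20) ^ n := by
    intro n
    rw [dist_comm, dist_eq_norm, hp n]
    refine (hn2 n (p n)).trans (le_of_eq ?_)
    rw [hsd]; ring
  obtain ⟨a', ha'⟩ := cauchySeq_tendsto_of_complete
    (cauchySeq_of_le_geometric (1 / 20) (8 * Real.sqrt δ) (by norm_num) hA)
  obtain ⟨b', hb'⟩ := cauchySeq_tendsto_of_complete
    (cauchySeq_of_le_geometric (1 / 20) (8 * Real.sqrt δ) (by norm_num) hB)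
  have hda := dist_le_of_le_geometric_of_tendsto₀ (1 / 20) (8 * Real.sqrt δ) (by norm_num) hA ha'
  have hdb := dist_le_of_le_geometric_of_tendsto₀ (1 / 20) (8 * Real.sqrt δ) (by norm_num) hB hb'
  have hsδ := Real.sqrt_nonneg δ
  refine ⟨a', b', ?_, ?_, ?_⟩
  · have h1 : Tendsto (fun n => (p n).1.1 * (p n).1.2) atTop (𝓝 (a' * b')) := ha'.mul hb'
    have h2 : Tendsto (fun n => (p n).1.1 * (p n).1.2) atTop (𝓝 c) := by
      rw [tendsto_iff_norm_sub_tendsto_zero]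
      refine squeeze_zero (fun n => norm_nonneg _) (g := d) (fun n => ?_) ?_
      · rw [norm_sub_rev]
        exact (p n).2.le
      · have h3 : Tendsto (fun n : ℕ => δ * (((1 : ℝ) / 20) ^ 2) ^ n) atTop (𝓝 (δ * 0)) :=
          (tendsto_pow_atTop_nhds_zero_of_lt_one (by norm_num) (by norm_num)).const_mul δ
        rw [mul_zero] at h3
        refine h3.congr fun n => ?_
        change _ = δ * (1 / 20) ^ (2 * n)
        rw [pow_mul]
    exact tendsto_nhds_unique h1 h2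
  · rw [← dist_eq_norm, dist_comm]
    refine hda.trans ?_
    rw [div_le_iff₀ (by norm_num)]
    nlinarith
  · rw [← dist_eq_norm, dist_comm]
    refine hdb.trans ?_
    rw [div_le_iff₀ (by norm_num)]
    nlinarith

open scoped Pointwise in
/-- **Multiplication in `C(X, ℂ)` is uniformly open if `dim X ≤ 1`.**  For every compact Hausdorff
space `X` of covering dimension at most one, every `ε > 0` and all `a, b` in `C(X, ℂ)`,
`B(ab, ε²/100) ⊆ B(a, ε) · B(b, ε)`.  In particular multiplication is an open map. -/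
theorem result {X : Type u} [TopologicalSpace X] [CompactSpace X] [T2Space X]
    (hX : CovDimLE X 1) :
    (∀ ε : ℝ, 0 < ε → ∀ a b : C(X, ℂ), ball (a * b) (ε ^ 2 / 100) ⊆ ball a ε * ball b ε) ∧
      IsOpenMap (fun p : C(X, ℂ) × C(X, ℂ) => p.1 * p.2) := by
  have main : ∀ ε : ℝ, 0 < ε → ∀ a b c : C(X, ℂ), dist c (a * b) < ε ^ 2 / 100 →
      ∃ a' b' : C(X, ℂ), a' * b' = c ∧ dist a' a < ε ∧ dist b' b < ε := by
    intro ε hε a b c hc
    obtain ⟨a', b', h, h1, h2⟩ := exact hX a b c (δ := ε ^ 2 / 100) (by positivity)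
      (by rwa [← dist_eq_norm])
    have hs : Real.sqrt (ε ^ 2 / 100) = ε / 10 := by
      have : ε ^ 2 / 100 = (ε / 10) ^ 2 := by ring
      rw [this, Real.sqrt_sq (by positivity)]
    rw [hs] at h1 h2
    refine ⟨a', b', h, ?_, ?_⟩
    · rw [dist_eq_norm]; linarith
    · rw [dist_eq_norm]; linarith
  refine ⟨?_, ?_⟩
  · intro ε hε a b c hc
    obtain ⟨a', b', h, h1, h2⟩ := main ε hε a b c hc
    exact ⟨a', h1, b', h2, h⟩
  · intro W hW
    rw [Metric.isOpen_iff]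
    rintro _ ⟨⟨a, b⟩, hab, rfl⟩
    obtain ⟨ε, hε, hsub⟩ := Metric.isOpen_iff.1 hW (a, b) hab
    refine ⟨ε ^ 2 / 100, by positivity, ?_⟩
    intro c hc
    obtain ⟨a', b', h, h1, h2⟩ := main ε hε a b c hc
    refine ⟨(a', b'), hsub ?_, h⟩
    rw [mem_ball, Prod.dist_eq]
    exact max_lt h1 h2

end Pool.Agent.Results.MP_64150f_an.UniformlyOpen
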